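import Pool.Agent.Helper77.DS.St.A

/-! # DS-4: one column -/

namespace Pool.Agent.Helper67.DS

open Pool.Agent.Helper77.DS

section

variable {R E Z : Type} [Fintype R] [DecidableEq R] [Fintype E] [DecidableEq E]

/-- `μ` is the weight of a nonzero element of `N` -/
def Wt (N : Submodule ℂ ((R → E) → Z → ℂ)) (μ : E → ℕ) : Prop :=
  ∃ F ∈ N, F ≠ 0 ∧ ∀ u, F u ≠ 0 → cnt u = μ

/-- move one unit from `b` to `a` -/
def mv (μ : E → ℕ) (a b : E) : E → ℕ :=
  Function.update (Function.update μ b (μ b - 1)) a (μ a + 1)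

/-- the derivative -/
def dv (a b : E) (F : (R → E) → Z → ℂ) : (R → E) → Z → ℂ :=
  fun u => ∑ r ∈ Finset.univ.filter (fun r => u r = a), F (Function.update u r b)

/-- number of letters other than `v` that occur -/
def ph (μ : E → ℕ) (v : E) : ℕ := (Finset.univ.filter fun c => c ≠ v ∧ 1 ≤ μ c).card

theorem sum_cnt (u : R → E) : ∑ c, cnt u c = Fintype.card R := by
  have := Finset.card_eq_sum_card_fiberwise (f := u) (s := Finset.univ) (t := Finset.univ)
    (fun _ _ => Finset.mem_univ _)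
  rw [Finset.card_univ] at this
  exact this.symm

theorem cnt_update (u : R → E) (r : R) (b c : E) :
    cnt (Function.update u r b) c + (if u r = c then 1 else 0)
      = cnt u c + (if b = c then 1 else 0) := by
  unfold cnt
  rw [Finset.card_filter, Finset.card_filter,
    ← Finset.add_sum_erase Finset.univ (fun i => if Function.update u r b i = c then 1 else 0)
      (Finset.mem_univ r),
    ← Finset.add_sum_erase Finset.univ (fun i => if u i = c then 1 else 0) (Finset.mem_univ r)]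
  have h : ∑ x ∈ Finset.univ.erase r, (if Function.update u r b x = c then 1 else 0)
      = ∑ x ∈ Finset.univ.erase r, (if u x = c then 1 else 0) := by
    refine Finset.sum_congr rfl fun x hx => ?_
    rw [Function.update_of_ne (Finset.ne_of_mem_erase hx)]
  rw [h, Function.update_self]
  omega

theorem cnt_eq_mv {u : R → E} {r : R} {a b : E} (hab : a ≠ b) (hr : u r = a) {μ : E → ℕ}
    (h : cnt (Function.update u r b) = μ) : cnt u = mv μ a b := by
  funext c
  have h1 := cnt_update u r b c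
  rw [h, hr] at h1
  unfold mv
  by_cases hca : c = a
  · subst hca
    rw [Function.update_self]
    rw [if_pos rfl, if_neg (Ne.symm hab)] at h1
    omega
  · rw [Function.update_of_ne hca]
    by_cases hcb : c = b
    · subst hcb
      rw [Function.update_self]
      rw [if_neg (Ne.symm hca), if_pos rfl] at h1
      omega
    · rw [Function.update_of_ne hcb]
      rw [if_neg (Ne.symm hca), if_neg (Ne.symm hcb)] at h1
      omega

theorem dv_supp {F : (R → E) → Z → ℂ} {μ : E → ℕ} (hF : ∀ u, F u ≠ 0 → cnt u = μ) {a b : E}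
    (hab : a ≠ b) (u : R → E) (hu : dv a b F u ≠ 0) : cnt u = mv μ a b := by
  obtain ⟨r, hr, h⟩ := Finset.exists_ne_zero_of_sum_ne_zero hu
  exact cnt_eq_mv hab (Finset.mem_filter.1 hr).2 (hF _ h)

section

variable {N : Submodule ℂ ((R → E) → Z → ℂ)}

theorem dv_mem (hN : ∀ B : E → E → ℂ, ∀ F ∈ N, cact B F ∈ N) {F : (R → E) → Z → ℂ} (hF : F ∈ N)
    {a b : E} (hab : a ≠ b) : dv a b F ∈ N := deriv_mem N hN F hF a b hab

theorem dv_zero (hN : ∀ B : E → E → ℂ, ∀ F ∈ N, cact B F ∈ N) {F : (R → E) → Z → ℂ} (hF : F ∈ N)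
    {μ : E → ℕ} (hs : ∀ u, F u ≠ 0 → cnt u = μ) {a b : E} (hab : a ≠ b)
    (h : ¬ Wt N (mv μ a b)) : dv a b F = 0 := by
  by_contra h0
  exact h ⟨dv a b F, dv_mem hN hF hab, h0, dv_supp hs hab⟩

theorem wt_sum {μ : E → ℕ} (h : Wt N μ) : ∑ c, μ c = Fintype.card R := by
  obtain ⟨F, -, h0, hs⟩ := h
  obtain ⟨u, hu⟩ : ∃ u, F u ≠ 0 := by
    by_contra! h
    exact h0 (funext h)
  rw [← hs u hu]
  exact sum_cnt u

theorem wt_exists (hN : ∀ B : E → E → ℂ, ∀ F ∈ N, cact B F ∈ N) (h0 : N ≠ ⊥) : ∃ μ, Wt N μ := by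
  obtain ⟨F, hF, hF0⟩ := (Submodule.ne_bot_iff N).1 h0
  obtain ⟨u, hu⟩ : ∃ u, F u ≠ 0 := by
    by_contra! h
    exact hF0 (funext h)
  refine ⟨cnt u, _, weight_mem N hN F hF (cnt u), ?_, ?_⟩
  · intro h
    have := congrFun h u
    simp only [if_true] at this
    exact hu this
  · intro w hw
    by_contra h
    simp only [h, if_false] at hw
    exact hw rfl

theorem wt_mv (hN : ∀ B : E → E → ℂ, ∀ F ∈ N, cact B F ∈ N) {μ : E → ℕ} (h : Wt N μ) {a b : E}
    (hb : 1 ≤ μ b) (ha : μ a = 0) : Wt N (mv μ a b) := by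
  have hab : a ≠ b := by rintro rfl; omega
  obtain ⟨F, hF, h0, hs⟩ := h
  obtain ⟨u, hu⟩ : ∃ u, F u ≠ 0 := by
    by_contra! h
    exact h0 (funext h)
  refine ⟨dv a b F, dv_mem hN hF hab, ?_, dv_supp hs hab⟩
  have hc := hs u hu
  obtain ⟨r, hr⟩ : ∃ r, u r = b := by
    have h1 : 1 ≤ cnt u b := by rw [hc]; exact hb
    obtain ⟨r, hr⟩ := Finset.card_pos.1 h1
    exact ⟨r, (Finset.mem_filter.1 hr).2⟩
  have hna : ∀ r, u r ≠ a := by
    intro r hr
    have h1 : cnt u a = 0 := by rw [hc]; exact ha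
    have h2 := Finset.card_eq_zero.1 h1
    have h3 : r ∈ Finset.univ.filter (fun r => u r = a) :=
      Finset.mem_filter.2 ⟨Finset.mem_univ _, hr⟩
    rw [h2] at h3
    exact absurd h3 (Finset.notMem_empty _)
  intro hd
  have h1 := congrFun hd (Function.update u r a)
  have h2 : Finset.univ.filter (fun x => Function.update u r a x = a) = {r} := by
    ext x
    simp only [Finset.mem_filter, Finset.mem_univ, true_and, Finset.mem_singleton]
    by_cases hx : x = r
    · subst hx; simp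
    · simp only [Function.update_of_ne hx, hx, iff_false]; exact hna x
  unfold dv at h1
  rw [h2, Finset.sum_singleton, Function.update_idem, ← hr, Function.update_eq_self] at h1
  exact hu h1

theorem wt_perm (hN : ∀ B : E → E → ℂ, ∀ F ∈ N, cact B F ∈ N) {μ : E → ℕ} (h : Wt N μ)
    (π : Equiv.Perm E) : Wt N (fun c => μ (π c)) := by
  obtain ⟨F, hF, h0, hs⟩ := h
  obtain ⟨u, hu⟩ : ∃ u, F u ≠ 0 := by
    by_contra! h
    exact h0 (funext h)
  refine ⟨_, perm_mem N hN F hF π, ?_, ?_⟩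
  · intro h
    have := congrFun h (fun r => π.symm (u r))
    simp only [Equiv.apply_symm_apply] at this
    exact hu this
  · intro w hw
    have h1 := hs _ hw
    funext c
    rw [← h1]
    unfold cnt
    congr 1
    ext r
    simp

end

theorem exists_max {α : Type} (P : α → Prop) (f : α → ℕ) (B : ℕ) (h : ∃ x, P x)
    (hB : ∀ x, P x → f x ≤ B) : ∃ x, P x ∧ ∀ y, P y → f y ≤ f x := by
  have h1 : (f '' {x | P x}).Nonempty := by
    obtain ⟨x, hx⟩ := h
    exact ⟨f x, x, hx, rfl⟩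
  have h2 : BddAbove (f '' {x | P x}) := ⟨B, by rintro _ ⟨x, hx, rfl⟩; exact hB x hx⟩
  obtain ⟨x, hx, he⟩ := Nat.sSup_mem h1 h2
  exact ⟨x, hx, fun y hy => he ▸ le_csSup h2 ⟨y, hy, rfl⟩⟩

theorem mv_apply_a (μ : E → ℕ) (a b : E) : mv μ a b a = μ a + 1 := by
  unfold mv; rw [Function.update_self]

theorem mv_apply_b (μ : E → ℕ) {a b : E} (h : a ≠ b) : mv μ a b b = μ b - 1 := by
  unfold mv; rw [Function.update_of_ne (Ne.symm h), Function.update_self]

theorem mv_apply_ne (μ : E → ℕ) {a b c : E} (ha : c ≠ a) (hb : c ≠ b) : mv μ a b c = μ c := by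
  unfold mv; rw [Function.update_of_ne ha, Function.update_of_ne hb]

theorem ph_mv {μ : E → ℕ} {a b v : E} (hav : a ≠ v) (ha : μ a = 0) (hb : 1 ≤ μ b)
    (h : b = v ∨ 2 ≤ μ b) : ph (mv μ a b) v = ph μ v + 1 := by
  have hab : a ≠ b := by rintro rfl; omega
  unfold ph
  have h1 : (Finset.univ.filter fun c => c ≠ v ∧ 1 ≤ mv μ a b c)
      = insert a (Finset.univ.filter fun c => c ≠ v ∧ 1 ≤ μ c) := by
    ext c
    simp only [Finset.mem_filter, Finset.mem_univ, true_and, Finset.mem_insert]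
    by_cases hca : c = a
    · subst hca
      rw [mv_apply_a]
      simp [hav]
    · by_cases hcb : c = b
      · subst hcb
        rw [mv_apply_b μ hab]
        rcases h with h | h
        · simp [h, hca, Ne.symm hav]
        · simp only [hca, false_or]
          refine and_congr Iff.rfl ⟨fun _ => hb, fun _ => by omega⟩
      · rw [mv_apply_ne μ hca hcb]
        simp [hca]
  rw [h1, Finset.card_insert_of_notMem]
  simp [ha]

theorem exists_free {μ : E → ℕ} {v : E} (h : ph μ v + 1 < Fintype.card E) :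
    ∃ a, a ≠ v ∧ μ a = 0 := by
  by_contra! h1
  have h2 : (Finset.univ.filter fun c => c ≠ v ∧ 1 ≤ μ c) = Finset.univ.erase v := by
    ext c
    simp only [Finset.mem_filter, Finset.mem_univ, true_and, Finset.mem_erase, and_true]
    exact ⟨fun h => h.1, fun h => ⟨h, Nat.one_le_iff_ne_zero.2 (h1 c h)⟩⟩
  unfold ph at h
  rw [h2, Finset.card_erase_of_mem (Finset.mem_univ v), Finset.card_univ] at h
  omega

theorem sum_split (μ : E → ℕ) (v : E) :
    ∑ c, μ c = μ v + ∑ c ∈ Finset.univ.filter (fun c => c ≠ v ∧ 1 ≤ μ c), μ c := by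
  rw [← Finset.add_sum_erase Finset.univ μ (Finset.mem_univ v)]
  congr 1
  symm
  refine Finset.sum_subset (fun c hc => ?_) fun c hc hc' => ?_
  · exact Finset.mem_erase.2 ⟨(Finset.mem_filter.1 hc).2.1, Finset.mem_univ _⟩
  · have h1 : c ≠ v := Finset.ne_of_mem_erase hc
    by_contra h2
    exact hc' (Finset.mem_filter.2 ⟨Finset.mem_univ _, h1, Nat.one_le_iff_ne_zero.2 h2⟩)

theorem ph_le (μ : E → ℕ) (v : E) : ph μ v + μ v ≤ ∑ c, μ c := by
  rw [sum_split μ v]
  have h : (Finset.univ.filter fun c => c ≠ v ∧ 1 ≤ μ c).card • 1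
      ≤ ∑ c ∈ Finset.univ.filter (fun c => c ≠ v ∧ 1 ≤ μ c), μ c :=
    Finset.card_nsmul_le_sum _ _ _ fun c hc => (Finset.mem_filter.1 hc).2.2
  unfold ph
  simp only [smul_eq_mul, mul_one] at h
  omega

theorem ph_lt {μ : E → ℕ} {v b : E} (hb : b ≠ v) (h2 : 2 ≤ μ b) :
    ph μ v + μ v < ∑ c, μ c := by
  rw [sum_split μ v]
  have h : ∑ c ∈ Finset.univ.filter (fun c => c ≠ v ∧ 1 ≤ μ c), 1
      < ∑ c ∈ Finset.univ.filter (fun c => c ≠ v ∧ 1 ≤ μ c), μ c :=
    Finset.sum_lt_sum (fun c hc => (Finset.mem_filter.1 hc).2.2)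
      ⟨b, Finset.mem_filter.2 ⟨Finset.mem_univ _, hb, by omega⟩, by omega⟩
  rw [Finset.sum_const, smul_eq_mul, mul_one] at h
  unfold ph
  omega

theorem ph_eq {μ : E → ℕ} {v : E} (h : ∀ c, c ≠ v → μ c ≤ 1) :
    ph μ v + μ v = ∑ c, μ c := by
  rw [sum_split μ v]
  have h : ∑ c ∈ Finset.univ.filter (fun c => c ≠ v ∧ 1 ≤ μ c), μ c
      = ∑ c ∈ Finset.univ.filter (fun c => c ≠ v ∧ 1 ≤ μ c), 1 :=
    Finset.sum_congr rfl fun c hc => by
      have h1 := (Finset.mem_filter.1 hc).2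
      have h2 := h c h1.1
      omega
  rw [Finset.sum_const, smul_eq_mul, mul_one] at h
  unfold ph
  omega

theorem ph_le_card (μ : E → ℕ) (v : E) : ph μ v ≤ Fintype.card E := Finset.card_le_univ _

theorem sum_upd (g : ℕ → ℕ) (μ : E → ℕ) (a : E) (x : ℕ) :
    ∑ c, g (Function.update μ a x c) + g (μ a) = ∑ c, g (μ c) + g x := by
  rw [← Finset.add_sum_erase Finset.univ (fun c => g (Function.update μ a x c))
      (Finset.mem_univ a),
    ← Finset.add_sum_erase Finset.univ (fun c => g (μ c)) (Finset.mem_univ a)]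
  have : ∑ c ∈ Finset.univ.erase a, g (Function.update μ a x c)
      = ∑ c ∈ Finset.univ.erase a, g (μ c) :=
    Finset.sum_congr rfl fun c hc => by
      rw [Function.update_of_ne (Finset.ne_of_mem_erase hc)]
  rw [this]
  simp only [Function.update_self]
  omega

theorem sq_mv {μ : E → ℕ} {a b : E} (hab : a ≠ b) (hb : 1 ≤ μ b) (h : μ b ≤ μ a) :
    ∑ c, μ c ^ 2 < ∑ c, mv μ a b c ^ 2 := by
  have h1 := sum_upd (fun x => x ^ 2) (Function.update μ b (μ b - 1)) a (μ a + 1)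
  have h2 := sum_upd (fun x => x ^ 2) μ b (μ b - 1)
  simp only [Function.update_of_ne hab] at h1
  unfold mv
  obtain ⟨y, hy⟩ : ∃ y, μ b = y + 1 := ⟨μ b - 1, by omega⟩
  rw [hy] at h h2
  simp only [hy, Nat.add_sub_cancel] at h1 h2 ⊢
  nlinarith

theorem vanC_coord {k : ℕ} {U : Finset R} {F : (R → E) → Z → ℂ} (h : VanC k U F) (z : Z) :
    VanC k U (fun u => F u z) := by
  induction k generalizing U F with
  | zero => exact fun u => congrFun (h u) z
  | succ k ih => exact fun P Q hP hQ hne => ih (h P Q hP hQ hne)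

theorem claimA {N : Submodule ℂ ((R → E) → Z → ℂ)}
    (hN : ∀ B : E → E → ℂ, ∀ F ∈ N, cact B F ∈ N) (M : ℕ) (hM : 1 ≤ M)
    (hV : ∀ F ∈ N, VanC M ∅ F)
    (hK : 2 * M * (2 ^ (M + 1) * M ^ 2 + 1) ≤ Fintype.card R) (h0 : ∃ μ, Wt N μ) :
    ∃ μ v, Wt N μ ∧ 2 ^ (M + 1) * M ^ 2 < μ v := by
  by_contra! hA
  set T := 2 ^ (M + 1) * M ^ 2 with hT
  obtain ⟨μ, hμ, hmax⟩ := exists_max (fun μ : E → ℕ => Wt N μ) (fun μ => ∑ c, μ c ^ 2)
    (Fintype.card E * T ^ 2) h0 (by
      intro μ hμ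
      refine (Finset.sum_le_card_nsmul _ _ (T ^ 2) fun c _ =>
        Nat.pow_le_pow_left (hA μ c hμ) 2).trans ?_
      simp)
  have hsum := wt_sum hμ
  have hL : 2 * M ≤ (Finset.univ.filter fun c => 1 ≤ μ c).card := by
    by_contra! hL
    have h1 : ∑ c, μ c = ∑ c ∈ Finset.univ.filter (fun c => 1 ≤ μ c), μ c := by
      symm
      refine Finset.sum_subset (Finset.subset_univ _) fun c _ hc => ?_
      by_contra h2
      exact hc (Finset.mem_filter.2 ⟨Finset.mem_univ _, Nat.one_le_iff_ne_zero.2 h2⟩)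
    have h2 := Finset.sum_le_card_nsmul (Finset.univ.filter fun c => 1 ≤ μ c) μ T
      fun c _ => hA μ c hμ
    rw [← h1, hsum, smul_eq_mul] at h2
    have h3 : (Finset.univ.filter fun c => 1 ≤ μ c).card * T ≤ 2 * M * T :=
      Nat.mul_le_mul_right _ hL.le
    nlinarith
  obtain ⟨j⟩ : Nonempty ((Fin M ⊕ Fin M) ↪ {c : E // 1 ≤ μ c}) := by
    refine Function.Embedding.nonempty_of_card_le ?_
    rw [Fintype.card_sum, Fintype.card_fin, Fintype.card_subtype]
    omega
  let co : Fin M → Prop := fun s => μ (j (Sum.inr s)) ≤ μ (j (Sum.inl s))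
  let e : Fin M ⊕ Fin M → Fin M ⊕ Fin M := Sum.elim
    (fun s => if co s then Sum.inl s else Sum.inr s)
    (fun s => if co s then Sum.inr s else Sum.inl s)
  have he : ∀ x, e (e x) = x := by
    rintro (s | s) <;> by_cases h : co s <;> simp [e, h]
  let a : Fin M → E := fun s => j (e (Sum.inl s))
  let b : Fin M → E := fun s => j (e (Sum.inr s))
  have hab : Function.Injective (Sum.elim a b) := by
    have h1 : Sum.elim a b = fun x => (j (e x) : E) := by
      funext x
      rcases x with s | s <;> rfl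
    rw [h1]
    intro x y hxy
    have h2 := j.injective (Subtype.ext hxy)
    rw [← he x, ← he y, h2]
  have hba : ∀ s, μ (b s) ≤ μ (a s) := by
    intro s
    by_cases h : co s
    · simp only [a, b, e, Sum.elim_inl, Sum.elim_inr, h, if_true]
      exact h
    · simp only [a, b, e, Sum.elim_inl, Sum.elim_inr, h, if_false]
      exact (not_le.1 h).le
  have hb1 : ∀ s, 1 ≤ μ (b s) := fun s => (j (e (Sum.inr s))).2
  have hne : ∀ s, a s ≠ b s := by
    intro s h
    have := @hab (Sum.inl s) (Sum.inr s) h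
    simp at this
  obtain ⟨F, hF, hF0, hs⟩ := hμ
  have hd : ∀ s, dv (a s) (b s) F = 0 := by
    intro s
    refine dv_zero hN hF hs (hne s) fun hW => ?_
    have h1 := hmax _ hW
    have h2 := sq_mv (hne s) (hb1 s) (hba s)
    exact absurd h1 (not_le.2 h2)
  obtain ⟨u, hu⟩ : ∃ u, F u ≠ 0 := by
    by_contra! h
    exact hF0 (funext h)
  have hc := hs u hu
  have hr : ∀ s, ∃ r, u r = b s := by
    intro s
    have h1 : 1 ≤ cnt u (b s) := by rw [hc]; exact hb1 s
    obtain ⟨r, hr⟩ := Finset.card_pos.1 h1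
    exact ⟨r, (Finset.mem_filter.1 hr).2⟩
  choose r hr using hr
  refine hu (pairs_vanish M F ∅ (hV F hF) a b r u hr (fun s => by simp) (fun s x hx => by
    simp at hx) hab ?_)
  intro s u' _ hu'
  have h1 := congrFun (hd s) (Function.update u' (r s) (a s))
  unfold dv at h1
  have h2 : Finset.univ.filter (fun x => Function.update u' (r s) (a s) x = a s)
      = insert (r s) (Finset.univ.filter fun x => u' x = a s) := by
    ext x
    simp only [Finset.mem_filter, Finset.mem_univ, true_and, Finset.mem_insert]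
    by_cases hx : x = r s
    · subst hx; simp
    · simp [Function.update_of_ne hx, hx]
  have h3 : r s ∉ Finset.univ.filter fun x => u' x = a s := by
    simp only [Finset.mem_filter, Finset.mem_univ, true_and, hu']
    exact (hne s).symm
  rw [h2, Finset.sum_insert h3, Function.update_idem, ← hu', Function.update_eq_self] at h1
  have h4 : ∑ ρ ∈ Finset.univ.filter (fun x => u' x = a s),
      F (Function.update (Function.update u' (r s) (a s)) ρ (u' (r s)))
      = ∑ ρ ∈ Finset.univ.filter (fun ρ => u' ρ = a s),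
        F (fun x => u' (Equiv.swap ρ (r s) x)) := by
    refine Finset.sum_congr rfl fun ρ hρ => ?_
    have hρa : u' ρ = a s := (Finset.mem_filter.1 hρ).2
    congr 1
    funext x
    by_cases hx : x = ρ
    · subst hx
      rw [Function.update_self, Equiv.swap_apply_left]
    · rw [Function.update_of_ne hx]
      by_cases hx' : x = r s
      · subst hx'
        rw [Function.update_self, Equiv.swap_apply_right, hρa]
      · rw [Function.update_of_ne hx', Equiv.swap_apply_of_ne_of_ne hx hx']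
  rw [h4] at h1
  rw [Pi.zero_apply] at h1
  exact (neg_eq_of_add_eq_zero_right h1).symm

theorem claimB {N : Submodule ℂ ((R → E) → Z → ℂ)}
    (hN : ∀ B : E → E → ℂ, ∀ F ∈ N, cact B F ∈ N) (M : ℕ) (hM : 1 ≤ M)
    (hV : ∀ F ∈ N, VanC M ∅ F)
    (hK : 2 * M * (2 ^ (M + 1) * M ^ 2 + 1) ≤ Fintype.card R)
    (hE : Fintype.card R + 1 ≤ Fintype.card E) (h0 : ∃ μ, Wt N μ) :
    ∃ μ v, Wt N μ ∧ Fintype.card R < μ v + M := by
  obtain ⟨μ₀, v₀, hW₀, hv₀⟩ := claimA hN M hM hV hK h0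
  have hle : ∀ μ : E → ℕ, Wt N μ → ∀ v, μ v ≤ Fintype.card R := by
    intro μ hμ v
    rw [← wt_sum hμ]
    exact Finset.single_le_sum (fun _ _ => Nat.zero_le _) (Finset.mem_univ v)
  obtain ⟨⟨μ₁, v⟩, hW₁, hmax₁⟩ := exists_max (fun p : (E → ℕ) × E => Wt N p.1)
    (fun p => p.1 p.2) (Fintype.card R) ⟨(μ₀, v₀), hW₀⟩ fun p hp => hle _ hp _
  obtain ⟨μ, ⟨hW, hv⟩, hmax⟩ := exists_max (fun μ : E → ℕ => Wt N μ ∧ μ v = μ₁ v)
    (fun μ => ph μ v) (Fintype.card E) ⟨μ₁, hW₁, rfl⟩ fun μ _ => ph_le_card μ v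
  refine ⟨μ, v, hW, ?_⟩
  by_contra! hlt
  have hsum := wt_sum hW
  have hvT : 2 ^ (M + 1) * M ^ 2 < μ v := by
    rw [hv]
    exact lt_of_lt_of_le hv₀ (hmax₁ (μ₀, v₀) hW₀)
  have h1 : ∀ b, b ≠ v → μ b ≤ 1 := by
    intro b hb
    by_contra! hb2
    have h2 := ph_lt hb hb2
    obtain ⟨a, hav, ha⟩ := exists_free (μ := μ) (v := v) (by omega)
    have hab : a ≠ b := by rintro rfl; omega
    have h3 := hmax (mv μ a b) ⟨wt_mv hN hW (by omega) ha, by
      rw [mv_apply_ne μ (Ne.symm hav) (Ne.symm hb), hv]⟩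
    rw [ph_mv hav ha (by omega) (Or.inr hb2)] at h3
    omega
  have hph := ph_eq h1
  obtain ⟨a⟩ : Nonempty (Fin M ↪ {c : E // c ≠ v ∧ 1 ≤ μ c}) := by
    refine Function.Embedding.nonempty_of_card_le ?_
    rw [Fintype.card_fin, Fintype.card_subtype]
    unfold ph at hph
    omega
  have ha1 : ∀ s, μ (a s) = 1 := fun s => le_antisymm (h1 _ (a s).2.1) (a s).2.2
  obtain ⟨F, hF, hF0, hs⟩ := hW
  have hd : ∀ s, dv v (a s) F = 0 := by
    intro s
    refine dv_zero hN hF hs (Ne.symm (a s).2.1) fun hW' => ?_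
    have h2 := hmax₁ (mv μ v (a s), v) hW'
    simp only [mv_apply_a] at h2
    omega
  refine hF0 (funext fun u => ?_)
  by_contra hu
  have hc := hs u hu
  refine hu (funext fun z => ?_)
  refine hook_vanish M (fun u => F u z) (vanC_coord (hV F hF) z) v (fun s => (a s : E))
    (fun s t h => a.injective (Subtype.ext h)) (fun s => (a s).2.1) ?_ u ?_ ?_
  · intro s w
    have h2 := congrFun (congrFun (hd s) w) z
    unfold dv at h2
    rw [Finset.sum_apply] at h2
    exact h2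
  · intro s
    rw [hc]
    exact ha1 s
  · rw [hc]
    exact hvT

theorem claimC {N : Submodule ℂ ((R → E) → Z → ℂ)}
    (hN : ∀ B : E → E → ℂ, ∀ F ∈ N, cact B F ∈ N) (D : ℕ)
    (hE : Fintype.card R + 1 ≤ Fintype.card E) (hD : D ≤ Fintype.card R)
    {μ₀ : E → ℕ} {v : E} (hW₀ : Wt N μ₀) (hv₀ : Fintype.card R - D ≤ μ₀ v)
    (x : Fin (D + 1) → E) (hx : Function.Injective x) :
    ∃ F ∈ N, F ≠ 0 ∧ ∀ u, F u ≠ 0 → cnt u (x 0) = Fintype.card R - D ∧
      ∀ c : Fin (D + 1), c ≠ 0 → cnt u (x c) = 1 := by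
  obtain ⟨μ, ⟨hW, hv⟩, hmax⟩ := exists_max
    (fun μ : E → ℕ => Wt N μ ∧ Fintype.card R - D ≤ μ v)
    (fun μ => ph μ v) (Fintype.card E) ⟨μ₀, hW₀, hv₀⟩ fun μ _ => ph_le_card μ v
  have hsum := wt_sum hW
  have hv' : μ v = Fintype.card R - D := by
    by_contra hne
    have h2 := ph_le μ v
    obtain ⟨a, hav, ha⟩ := exists_free (μ := μ) (v := v) (by omega)
    have h3 := hmax (mv μ a v) ⟨wt_mv hN hW (by omega) ha, by
      rw [mv_apply_b μ hav]; omega⟩
    rw [ph_mv hav ha (by omega) (Or.inl rfl)] at h3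
    omega
  have h1 : ∀ b, b ≠ v → μ b ≤ 1 := by
    intro b hb
    by_contra! hb2
    have h2 := ph_lt hb hb2
    obtain ⟨a, hav, ha⟩ := exists_free (μ := μ) (v := v) (by omega)
    have hab : a ≠ b := by rintro rfl; omega
    have h3 := hmax (mv μ a b) ⟨wt_mv hN hW (by omega) ha, by
      rw [mv_apply_ne μ (Ne.symm hav) (Ne.symm hb)]; exact hv⟩
    rw [ph_mv hav ha (by omega) (Or.inr hb2)] at h3
    omega
  have hph := ph_eq h1
  obtain ⟨a⟩ : Nonempty (Fin D ↪ {c : E // c ≠ v ∧ 1 ≤ μ c}) := by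
    refine Function.Embedding.nonempty_of_card_le ?_
    rw [Fintype.card_fin, Fintype.card_subtype]
    unfold ph at hph
    omega
  have ha1 : ∀ s, μ (a s) = 1 := fun s => le_antisymm (h1 _ (a s).2.1) (a s).2.2
  let y : Fin (D + 1) → E := Fin.cons v fun s => (a s : E)
  have hy : Function.Injective y := by
    refine Fin.cons_injective_iff.2 ⟨?_, fun s t h => a.injective (Subtype.ext h)⟩
    rintro ⟨s, hs⟩
    exact (a s).2.1 hs
  obtain ⟨π, hπ⟩ : ∃ π : Equiv.Perm E, ∀ c, π (x c) = y c := by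
    let e : {z // z ∈ Set.range x} ≃ {z // z ∈ Set.range y} :=
      (Equiv.ofInjective x hx).symm.trans (Equiv.ofInjective y hy)
    classical
    refine ⟨e.extendSubtype, fun c => ?_⟩
    rw [e.extendSubtype_apply_of_mem (x c) ⟨c, rfl⟩]
    have : (Equiv.ofInjective x hx).symm ⟨x c, ⟨c, rfl⟩⟩ = c := by
      rw [Equiv.symm_apply_eq]
      rfl
    simp only [e, Equiv.trans_apply, this]
    rfl
  obtain ⟨F, hF, hF0, hs⟩ := wt_perm hN hW π
  refine ⟨F, hF, hF0, fun u hu => ?_⟩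
  have hc := hs u hu
  refine ⟨?_, fun c hc0 => ?_⟩
  · rw [hc]
    simp only [hπ]
    exact hv'
  · rw [hc]
    simp only [hπ]
    obtain ⟨s, rfl⟩ := Fin.exists_succ_eq.2 hc0
    exact ha1 s

end

/-- DS-4 -/
theorem column {R E Z : Type} [Fintype R] [DecidableEq R] [Fintype E] [DecidableEq E] (D : ℕ)
    (N : Submodule ℂ ((R → E) → Z → ℂ)) (hN : ∀ B : E → E → ℂ, ∀ F ∈ N, cact B F ∈ N)
    (hE : Fintype.card R + 1 ≤ Fintype.card E)
    (hR : (K0 D ≤ Fintype.card R ∧ ∀ F ∈ N, VanC (D + 1) ∅ F) ∨ Fintype.card R = D)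
    (x : Fin (D + 1) → E) (hx : Function.Injective x) (h0 : N ≠ ⊥) :
    ∃ F ∈ N, F ≠ 0 ∧ ∀ u, F u ≠ 0 → cnt u (x 0) = Fintype.card R - D ∧
      ∀ c : Fin (D + 1), c ≠ 0 → cnt u (x c) = 1 := by
  have hW := wt_exists hN h0
  rcases hR with ⟨hK, hV⟩ | hR
  · have hK' : 2 * (D + 1) * (2 ^ (D + 1 + 1) * (D + 1) ^ 2 + 1) ≤ Fintype.card R := hK
    obtain ⟨μ, v, hμ, hv⟩ := claimB hN (D + 1) (by omega) hV hK' hE hW
    refine claimC hN D hE ?_ (v := v) hμ (by omega) x hx
    nlinarith [Nat.zero_le (2 ^ (D + 1 + 1) * (D + 1) ^ 2)]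
  · obtain ⟨μ, hμ⟩ := hW
    exact claimC hN D hE hR.ge (v := x 0) hμ (by omega) x hx

end Pool.Agent.Helper67.DS
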